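import Pool.Agent.Helper60.PlzA.Goals

/-!
# Project PLA (MP_8e7d5e_co), packet EXSUM: the sum of the excesses
-/

set_option autoImplicit false

namespace Pool.Agent.Helper4.PlzA

open Finset Pool.Agent.Helper60.PlzA

open scoped Classical

variable {V : Type} [Fintype V]

theorem e2_sum (G : SimpleGraph V) (S : Finset V) :
    (e2 G S : ℝ) = ∑ x, ∑ y, if x ∈ S ∧ y ∈ S ∧ G.Adj x y then (1 : ℝ) else 0 := by
  have h : (e2 G S : ℝ) = ∑ p : V × V, if p.1 ∈ S ∧ p.2 ∈ S ∧ G.Adj p.1 p.2 then (1 : ℝ) else 0 := by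
    rw [Finset.sum_boole]
    unfold e2 eb
    congr 2
    ext p
    simp only [mem_filter, mem_product, mem_univ, true_and]
    tauto
  rw [h, Fintype.sum_prod_type]

theorem En_sum {M : ℕ} (G : SimpleGraph V) (σ : V → Fin M) :
    (En G σ : ℝ) = ∑ x, ∑ y, if G.Adj x y ∧ σ x = σ y then (1 : ℝ) else 0 := by
  have h : (En G σ : ℝ) = ∑ p : V × V, if G.Adj p.1 p.2 ∧ σ p.1 = σ p.2 then (1 : ℝ) else 0 := by
    rw [Finset.sum_boole]
    unfold En
    congr 2
  rw [h, Fintype.sum_prod_type]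

theorem Dp_sum {M : ℕ} (G : SimpleGraph V) (σ : V → Fin M) (x : V) (j : Fin M) :
    (Dp G σ x j : ℝ) = ∑ y, if G.Adj x y ∧ σ y = j then (1 : ℝ) else 0 := by
  rw [Finset.sum_boole]
  unfold Dp
  congr 2

/-- the sum of the excesses -/
theorem exc_sum {M : ℕ} (G : SimpleGraph V) (σ : V → Fin M) :
    ∑ x, ∑ j, exc G σ x j = (e2 G univ : ℝ) - M * En G σ := by
  have h1 : ∀ x, ∑ j, exc G σ x j = (∑ y, if G.Adj x y then (1 : ℝ) else 0) -
      M * ∑ y, if G.Adj x y ∧ σ x = σ y then (1 : ℝ) else 0 := by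
    intro x
    unfold exc
    rw [sum_sub_distrib, sum_const, card_univ, Fintype.card_fin, nsmul_eq_mul, Dp_sum]
    congr 1
    · simp only [Dp_sum]
      rw [sum_comm]
      refine sum_congr rfl fun y _ => ?_
      by_cases h : G.Adj x y
      · simp [h]
      · simp [h]
    · congr 1
      refine sum_congr rfl fun y _ => ?_
      congr 1
      simp only [eq_comm]
  rw [sum_congr rfl fun x _ => h1 x, sum_sub_distrib, ← mul_sum, ← En_sum, e2_sum]
  simp

theorem parts_card {M : ℕ} (σ : V → Fin M) :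
    ∑ i : Fin M, ((univ.filter fun v => σ v = i).card : ℝ) = Fintype.card V := by
  have h := Finset.card_eq_sum_card_fiberwise (s := (univ : Finset V)) (t := (univ : Finset (Fin M))) (f := σ)
    (fun x _ => mem_univ _)
  rw [← Finset.card_univ, h]
  push_cast
  rfl

theorem parts_e2 {M : ℕ} (G : SimpleGraph V) (σ : V → Fin M) :
    ∑ i : Fin M, (e2 G (univ.filter fun v => σ v = i) : ℝ) = En G σ := by
  simp only [e2_sum]
  rw [En_sum, sum_comm]
  refine sum_congr rfl fun x _ => ?_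
  rw [sum_comm]
  refine sum_congr rfl fun y _ => ?_
  have : ∀ i : Fin M, (if x ∈ (univ.filter fun v => σ v = i) ∧ y ∈ (univ.filter fun v => σ v = i) ∧ G.Adj x y then
      (1 : ℝ) else 0) = if σ x = i then (if G.Adj x y ∧ σ x = σ y then (1 : ℝ) else 0) else 0 := by
    intro i
    simp only [mem_filter, mem_univ, true_and]
    by_cases h1 : σ x = i
    · subst h1
      by_cases h2 : G.Adj x y
      · by_cases h3 : σ x = σ y
        · simp [h2, h3]
        · have h4 : ¬ (σ y = σ x) := fun h => h3 h.symm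
          simp [h2, h3, h4]
      · simp [h2]
    · simp [h1]
  rw [sum_congr rfl fun i _ => this i]
  simp

theorem exsum : S_EXSUM := by
  intro V _ G M s η σ hM hs hη hHS
  rw [exc_sum]
  set n : ℝ := (Fintype.card V : ℝ) with hn
  set E : ℝ := (e2 G univ : ℝ) with hE
  set W : ℝ := (En G σ : ℝ) with hW
  have hM' : (0 : ℝ) < M := by exact_mod_cast hM
  have hs' : (0 : ℝ) < s := by exact_mod_cast hs
  have hE0 : 0 ≤ E := by positivity
  have hsum : ∑ i : Fin M, (((M * s : ℕ) : ℝ) ^ 2 * UU G s (univ.filter fun v => σ v = i)) ≤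
      ∑ _i : Fin M, ((1 + 3 * η) * (s : ℝ) ^ 2 * UU G (M * s) univ) :=
    sum_le_sum fun i _ => hHS _
  rw [← mul_sum, sum_const, card_univ, Fintype.card_fin, nsmul_eq_mul] at hsum
  have h1 : ∑ i : Fin M, UU G s (univ.filter fun v => σ v = i) = 2 * s * n - W := by
    unfold UU
    rw [sum_sub_distrib, ← mul_sum, parts_card, parts_e2]
  have h2 : UU G (M * s) univ = 2 * (M * s : ℝ) * n - E := by
    unfold UU
    rw [card_univ]
    push_cast
    ring
  rw [h1, h2] at hsum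
  push_cast at hsum ⊢
  -- (M s)^2 (2 s n - W) ≤ M (1 + 3 η) s^2 (2 M s n - E)
  have h3 : (M : ℝ) * (s : ℝ) ^ 2 * ((M : ℝ) * (2 * s * n - W)) ≤
      (M : ℝ) * (s : ℝ) ^ 2 * ((1 + 3 * η) * (2 * (M * s) * n - E)) := by
    calc (M : ℝ) * (s : ℝ) ^ 2 * ((M : ℝ) * (2 * s * n - W)) = ((M : ℝ) * s) ^ 2 * (2 * s * n - W) := by ring
      _ ≤ (M : ℝ) * ((1 + 3 * η) * (s : ℝ) ^ 2 * (2 * (M * s) * n - E)) := hsum
      _ = _ := by ring
  have h4 := le_of_mul_le_mul_left h3 (by positivity)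
  nlinarith [mul_nonneg hη hE0]

end Pool.Agent.Helper4.PlzA
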